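import Mathlib

/-!
# The weak Shanks conjecture fails for the Hardy space of the bidisk

For `f = (3 + 2 z₁)(3 + 2 z₂)(2 + z₁ z₂)²`, a polynomial with no zeros on the closed bidisk, the
optimal polynomial approximant of index `n = 2` (the minimiser over `span {1, z₁, z₂}`) is a
multiple of `2735 - 1378 (z₁ + z₂)` and so it vanishes at `z₁ = z₂ = 2735/2756`, a point of the
open bidisk.
-/

open MvPolynomial ComplexConjugate

namespace Pool.Agent.Results.MP_52e642_an.WeakShanksFails

/-- Polynomials in two complex variables; `X 0` is `z₁` and `X 1` is `z₂`. -/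
abbrev Poly2 : Type := MvPolynomial (Fin 2) ℂ

/-- The square of the norm of `H²(𝔻²)` of a polynomial `∑ a_{j,k} z₁^j z₂^k`,
namely `∑ |a_{j,k}|²`. -/
noncomputable def normSq (g : Poly2) : ℝ := ∑ m ∈ g.support, ‖g.coeff m‖ ^ 2

/-- The exponents `(j, k)` of the monomials `z₁^j z₂^k` in degree-lexicographic order
`1, z₁, z₂, z₁², z₁z₂, z₂², z₁³, …`: after `z₁^(j+1) z₂^k` comes `z₁^j z₂^(k+1)`, and after
`z₂^k` comes `z₁^(k+1)`. -/
def expo : ℕ → ℕ × ℕ
  | 0 => (0, 0)
  | n + 1 =>
    match expo n with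
    | (0, k) => (k + 1, 0)
    | (j + 1, k) => (j, k + 1)

/-- `𝒫ₙ`, the span of the first `n + 1` monomials in degree-lexicographic order. -/
noncomputable def P (n : ℕ) : Submodule ℂ Poly2 :=
  Submodule.span ℂ {g | ∃ i ≤ n, g = X 0 ^ (expo i).1 * X 1 ^ (expo i).2}

/-- `q` is an `n`-th optimal polynomial approximant of `1/f` in `H²(𝔻²)`: it lies in `𝒫ₙ` and
minimises `‖p f - 1‖` over all `p ∈ 𝒫ₙ`. -/
def IsOPA (f : Poly2) (n : ℕ) (q : Poly2) : Prop :=
  q ∈ P n ∧ ∀ p ∈ P n, normSq (q * f - 1) ≤ normSq (p * f - 1)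

/-! ### The inner product -/

/-- Inner product of coefficient families. -/
noncomputable def ip (u v : Poly2) : ℂ := ∑ m ∈ u.support, conj (u.coeff m) * v.coeff m

lemma ip_eq {u v : Poly2} {S : Finset (Fin 2 →₀ ℕ)} (h : u.support ⊆ S) :
    ip u v = ∑ m ∈ S, conj (u.coeff m) * v.coeff m := by
  refine Finset.sum_subset h ?_
  intro m _ hm
  rw [notMem_support_iff.mp hm]
  simp

lemma normSq_eq {u : Poly2} {S : Finset (Fin 2 →₀ ℕ)} (h : u.support ⊆ S) :
    normSq u = ∑ m ∈ S, ‖u.coeff m‖ ^ 2 := by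
  refine Finset.sum_subset h ?_
  intro m _ hm
  rw [notMem_support_iff.mp hm]
  simp

lemma ip_add_right (u v w : Poly2) : ip u (v + w) = ip u v + ip u w := by
  simp [ip, mul_add, Finset.sum_add_distrib]

lemma ip_smul_right (c : ℂ) (u v : Poly2) : ip u (C c * v) = c * ip u v := by
  simp only [ip, coeff_C_mul, Finset.mul_sum]
  refine Finset.sum_congr rfl fun m _ => ?_
  ring

lemma ip_sub_right (u v w : Poly2) : ip u (v - w) = ip u v - ip u w := by
  simp [ip, mul_sub, Finset.sum_sub_distrib]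

lemma ip_add_left (u v w : Poly2) : ip (u + v) w = ip u w + ip v w := by
  classical
  rw [ip_eq (u := u + v) (S := (u + v).support ∪ (u.support ∪ v.support))
      Finset.subset_union_left,
    ip_eq (u := u) (S := (u + v).support ∪ (u.support ∪ v.support))
      (Finset.subset_union_left.trans Finset.subset_union_right),
    ip_eq (u := v) (S := (u + v).support ∪ (u.support ∪ v.support))
      (Finset.subset_union_right.trans Finset.subset_union_right), ← Finset.sum_add_distrib]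
  refine Finset.sum_congr rfl fun m _ => ?_
  rw [coeff_add, map_add]
  ring

lemma ip_smul_left (c : ℂ) (u v : Poly2) : ip (C c * u) v = conj c * ip u v := by
  classical
  rw [ip_eq (u := C c * u) (S := (C c * u).support ∪ u.support) Finset.subset_union_left,
    ip_eq (u := u) (S := (C c * u).support ∪ u.support) Finset.subset_union_right,
    Finset.mul_sum]
  refine Finset.sum_congr rfl fun m _ => ?_
  rw [coeff_C_mul, map_mul]
  ring

lemma normSq_add (u v : Poly2) :
    normSq (u + v) = normSq u + normSq v + 2 * (ip u v).re := by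
  classical
  have h1 := normSq_eq (u := u + v) (S := (u + v).support ∪ (u.support ∪ v.support))
    Finset.subset_union_left
  have h2 := normSq_eq (u := u) (S := (u + v).support ∪ (u.support ∪ v.support))
    (Finset.subset_union_left.trans Finset.subset_union_right)
  have h3 := normSq_eq (u := v) (S := (u + v).support ∪ (u.support ∪ v.support))
    (Finset.subset_union_right.trans Finset.subset_union_right)
  have h4 := ip_eq (u := u) (v := v) (S := (u + v).support ∪ (u.support ∪ v.support))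
    (Finset.subset_union_left.trans Finset.subset_union_right)
  rw [h1, h2, h3, h4, Complex.re_sum, Finset.mul_sum, ← Finset.sum_add_distrib,
    ← Finset.sum_add_distrib]
  refine Finset.sum_congr rfl fun m _ => ?_
  rw [coeff_add, ← Complex.normSq_eq_norm_sq, ← Complex.normSq_eq_norm_sq,
    ← Complex.normSq_eq_norm_sq]
  simp only [Complex.normSq_apply, Complex.add_re, Complex.add_im, Complex.mul_re,
    Complex.conj_re, Complex.conj_im]
  ring

lemma normSq_nonneg (u : Poly2) : 0 ≤ normSq u :=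
  Finset.sum_nonneg fun _ _ => by positivity

lemma eq_zero_of_normSq {u : Poly2} (h : normSq u ≤ 0) : u = 0 := by
  have h0 : normSq u = 0 := le_antisymm h (normSq_nonneg u)
  have h1 := (Finset.sum_eq_zero_iff_of_nonneg (s := u.support)
    (f := fun m => ‖u.coeff m‖ ^ 2) (fun _ _ => by positivity)).mp h0
  ext m
  by_cases hm : m ∈ u.support
  · simpa using h1 m hm
  · simpa using hm

/-! ### Monomials -/

/-- Exponent `(i, j)`. -/
noncomputable def e (i j : ℕ) : Fin 2 →₀ ℕ := Finsupp.single 0 i + Finsupp.single 1 j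

lemma e_inj {i j k l : ℕ} : e i j = e k l ↔ i = k ∧ j = l := by
  constructor
  · intro h
    constructor
    · simpa [e] using DFunLike.congr_fun h 0
    · simpa [e] using DFunLike.congr_fun h 1
  · rintro ⟨rfl, rfl⟩; rfl

/-- The monomial `c z₁^i z₂^j`. -/
noncomputable def mo (i j : ℕ) (c : ℂ) : Poly2 := monomial (e i j) c

lemma mo_mul (i j k l : ℕ) (a b : ℂ) : mo i j a * mo k l b = mo (i + k) (j + l) (a * b) := by
  have h : e i j + e k l = e (i + k) (j + l) := by
    ext x
    fin_cases x <;> simp [e]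
  rw [mo, mo, mo, monomial_mul, h]

lemma mo_eq (i j : ℕ) (c : ℂ) : mo i j c = C c * (X 0 ^ i * X 1 ^ j) := by
  rw [mo, e, X_pow_eq_monomial, X_pow_eq_monomial, monomial_mul, C_mul_monomial]
  simp

lemma ip_mo (i j : ℕ) (a : ℂ) (v : Poly2) : ip (mo i j a) v = conj a * v.coeff (e i j) := by
  classical
  rw [mo, ip_eq (S := {e i j}) support_monomial_subset]
  simp

lemma coeff_mo (i j k l : ℕ) (a : ℂ) :
    (mo i j a).coeff (e k l) = if i = k ∧ j = l then a else 0 := by
  classical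
  rw [mo, coeff_monomial]
  simp only [e_inj]

/-! ### The example -/

/-- `f = (3 + 2 z₁)(3 + 2 z₂)(2 + z₁ z₂)²`. -/
noncomputable def f : Poly2 := (3 + 2 * X 0) * (3 + 2 * X 1) * (2 + X 0 * X 1) ^ 2

lemma f_eq : f = mo 0 0 36 + mo 1 1 52 + mo 2 2 25 + mo 3 3 4 + mo 1 0 24 + mo 2 1 24 +
    mo 3 2 6 + mo 0 1 24 + mo 1 2 24 + mo 2 3 6 := by
  simp only [mo_eq, f]
  have h : ∀ n : ℕ, (C (n : ℂ) : Poly2) = (n : Poly2) := fun n => by simp
  have h36 : (C 36 : Poly2) = 36 := by simpa using h 36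
  have h52 : (C 52 : Poly2) = 52 := by simpa using h 52
  have h25 : (C 25 : Poly2) = 25 := by simpa using h 25
  have h4 : (C 4 : Poly2) = 4 := by simpa using h 4
  have h24 : (C 24 : Poly2) = 24 := by simpa using h 24
  have h6 : (C 6 : Poly2) = 6 := by simpa using h 6
  rw [h36, h52, h25, h4, h24, h6]
  ring

lemma X0_eq : (X 0 : Poly2) = mo 1 0 1 := by simp [mo_eq]
lemma X1_eq : (X 1 : Poly2) = mo 0 1 1 := by simp [mo_eq]
lemma one_eq : (1 : Poly2) = mo 0 0 1 := by simp [mo_eq]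

lemma X0f_eq : X 0 * f = mo 1 0 36 + mo 2 1 52 + mo 3 2 25 + mo 4 3 4 + mo 2 0 24 + mo 3 1 24 +
    mo 4 2 6 + mo 1 1 24 + mo 2 2 24 + mo 3 3 6 := by
  rw [X0_eq, f_eq]
  simp only [mul_add, mo_mul, one_mul]

lemma X1f_eq : X 1 * f = mo 0 1 36 + mo 1 2 52 + mo 2 3 25 + mo 3 4 4 + mo 1 1 24 + mo 2 2 24 +
    mo 3 3 6 + mo 0 2 24 + mo 1 3 24 + mo 2 4 6 := by
  rw [X1_eq, f_eq]
  simp only [mul_add, mo_mul, one_mul, zero_add, add_zero, Nat.reduceAdd]

lemma ip_f_f : ip f f = 7017 := by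
  rw [f_eq]
  simp only [ip_add_left, ip_mo, coeff_add, coeff_mo]
  norm_num
  simp only [Complex.conj_ofNat]
  norm_num

lemma ip_0_0 : ip (X 0 * f) (X 0 * f) = 7017 := by
  rw [X0f_eq]
  simp only [ip_add_left, ip_mo, coeff_add, coeff_mo]
  norm_num
  simp only [Complex.conj_ofNat]
  norm_num

lemma ip_1_1 : ip (X 1 * f) (X 1 * f) = 7017 := by
  rw [X1f_eq]
  simp only [ip_add_left, ip_mo, coeff_add, coeff_mo]
  norm_num
  simp only [Complex.conj_ofNat]
  norm_num

lemma ip_f_0 : ip f (X 0 * f) = 4134 := by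
  rw [X0f_eq, f_eq]
  simp only [ip_add_left, ip_mo, coeff_add, coeff_mo]
  norm_num
  simp only [Complex.conj_ofNat]
  norm_num

lemma ip_f_1 : ip f (X 1 * f) = 4134 := by
  rw [X1f_eq, f_eq]
  simp only [ip_add_left, ip_mo, coeff_add, coeff_mo]
  norm_num
  simp only [Complex.conj_ofNat]
  norm_num

lemma ip_0_f : ip (X 0 * f) f = 4134 := by
  rw [X0f_eq, f_eq]
  simp only [ip_add_left, ip_mo, coeff_add, coeff_mo]
  norm_num
  simp only [Complex.conj_ofNat]
  norm_num

lemma ip_1_f : ip (X 1 * f) f = 4134 := by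
  rw [X1f_eq, f_eq]
  simp only [ip_add_left, ip_mo, coeff_add, coeff_mo]
  norm_num
  simp only [Complex.conj_ofNat]
  norm_num

lemma ip_0_1 : ip (X 0 * f) (X 1 * f) = 1188 := by
  rw [X0f_eq, X1f_eq]
  simp only [ip_add_left, ip_mo, coeff_add, coeff_mo]
  norm_num
  simp only [Complex.conj_ofNat]
  norm_num

lemma ip_1_0 : ip (X 1 * f) (X 0 * f) = 1188 := by
  rw [X0f_eq, X1f_eq]
  simp only [ip_add_left, ip_mo, coeff_add, coeff_mo]
  norm_num
  simp only [Complex.conj_ofNat]
  norm_num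

lemma ip_f_one : ip f 1 = 36 := by
  rw [one_eq, f_eq]
  simp only [ip_add_left, ip_mo, coeff_mo]
  norm_num
  simp only [Complex.conj_ofNat]

lemma ip_0_one : ip (X 0 * f) 1 = 0 := by
  rw [one_eq, X0f_eq]
  simp only [ip_add_left, ip_mo, coeff_mo]
  norm_num

lemma ip_1_one : ip (X 1 * f) 1 = 0 := by
  rw [one_eq, X1f_eq]
  simp only [ip_add_left, ip_mo, coeff_mo]
  norm_num

/-- The optimal approximant. -/
noncomputable def q : Poly2 :=
  C (98460 / 7798191) * 1 + C (-(98460 / 7798191) * (1378 / 2735)) * X 0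
    + C (-(98460 / 7798191) * (1378 / 2735)) * X 1

lemma mem_P_two {p : Poly2} : p ∈ P 2 ↔ ∃ a b c : ℂ, p = C a * 1 + C b * X 0 + C c * X 1 := by
  have hset : {g : Poly2 | ∃ i ≤ 2, g = X 0 ^ (expo i).1 * X 1 ^ (expo i).2} =
      {1, X 0, X 1} := by
    ext g
    constructor
    · rintro ⟨i, hi, rfl⟩
      interval_cases i <;> simp [expo]
    · rintro (rfl | rfl | rfl)
      · exact ⟨0, by norm_num, by simp [expo]⟩
      · exact ⟨1, by norm_num, by simp [expo]⟩
      · exact ⟨2, by norm_num, by simp [expo]⟩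
  rw [P, hset, Submodule.mem_span_triple]
  simp only [smul_eq_C_mul]
  constructor
  · rintro ⟨a, b, c, h⟩
    exact ⟨a, b, c, h.symm⟩
  · rintro ⟨a, b, c, h⟩
    exact ⟨a, b, c, h.symm⟩

lemma qf_eq : q * f - 1 = C (98460 / 7798191) * f
    + C (-(98460 / 7798191) * (1378 / 2735)) * (X 0 * f)
    + C (-(98460 / 7798191) * (1378 / 2735)) * (X 1 * f) - 1 := by
  rw [q]; ring

lemma orth_f : ip f (q * f - 1) = 0 := by
  rw [qf_eq, ip_sub_right, ip_add_right, ip_add_right, ip_smul_right, ip_smul_right,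
    ip_smul_right, ip_f_f, ip_f_0, ip_f_1, ip_f_one]
  norm_num

lemma orth_0 : ip (X 0 * f) (q * f - 1) = 0 := by
  rw [qf_eq, ip_sub_right, ip_add_right, ip_add_right, ip_smul_right, ip_smul_right,
    ip_smul_right, ip_0_f, ip_0_0, ip_0_1, ip_0_one]
  norm_num

lemma orth_1 : ip (X 1 * f) (q * f - 1) = 0 := by
  rw [qf_eq, ip_sub_right, ip_add_right, ip_add_right, ip_smul_right, ip_smul_right,
    ip_smul_right, ip_1_f, ip_1_0, ip_1_1, ip_1_one]
  norm_num

lemma q_mem : q ∈ P 2 := mem_P_two.mpr ⟨_, _, _, rfl⟩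

lemma orth {p : Poly2} (hp : p ∈ P 2) : ip (p * f) (q * f - 1) = 0 := by
  obtain ⟨a, b, c, rfl⟩ := mem_P_two.mp hp
  have h : (C a * 1 + C b * X 0 + C c * X 1) * f
      = C a * f + C b * (X 0 * f) + C c * (X 1 * f) := by ring
  rw [h, ip_add_left, ip_add_left, ip_smul_left, ip_smul_left, ip_smul_left, orth_f, orth_0,
    orth_1]
  simp

lemma pythagoras {p : Poly2} (hp : p ∈ P 2) :
    normSq (p * f - 1) = normSq (q * f - 1) + normSq ((p - q) * f) := by
  have h : p * f - 1 = (p - q) * f + (q * f - 1) := by ring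
  rw [h, normSq_add, orth (Submodule.sub_mem _ hp q_mem)]
  simp only [Complex.zero_re]
  ring

/-- `f` has no zeros on the closed bidisk. -/
lemma f_ne_zero (z : Fin 2 → ℂ) (hz : ∀ i, ‖z i‖ ≤ 1) : eval z f ≠ 0 := by
  have h0 := hz 0
  have h1 := hz 1
  have e2 : eval z (2 : Poly2) = 2 := by
    simp
  have e3 : eval z (3 : Poly2) = 3 := by
    simp
  have hf : eval z f = (3 + 2 * z 0) * (3 + 2 * z 1) * (2 + z 0 * z 1) ^ 2 := by
    simp [f, e2, e3]
  rw [hf]
  have key : ∀ (a b : ℂ), ‖b‖ < ‖a‖ → a + b ≠ 0 := by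
    intro a b hab h
    have : a = -b := eq_neg_of_add_eq_zero_left h
    rw [this, norm_neg] at hab
    exact lt_irrefl _ hab
  have k0 : (3 : ℂ) + 2 * z 0 ≠ 0 := key _ _ (by
    rw [norm_mul]; norm_num; linarith)
  have k1 : (3 : ℂ) + 2 * z 1 ≠ 0 := key _ _ (by
    rw [norm_mul]; norm_num; linarith)
  have k2 : (2 : ℂ) + z 0 * z 1 ≠ 0 := key _ _ (by
    rw [norm_mul]
    norm_num
    nlinarith [norm_nonneg (z 0), norm_nonneg (z 1)])
  exact mul_ne_zero (mul_ne_zero k0 k1) (pow_ne_zero 2 k2)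

lemma f_ne : f ≠ 0 := by
  intro h
  have := f_ne_zero 0 (by simp)
  rw [h] at this
  simp at this

/-- **The weak Shanks conjecture for `H²(𝔻²)` is false.** There are a polynomial `f` with no zeros
on the closed bidisk and an index `n` for which the `n`-th optimal polynomial approximant `q` of
`1/f` (which exists and is unique) has a zero in the open bidisk. -/
theorem result :
    ∃ f : Poly2, (∀ z : Fin 2 → ℂ, (∀ i, ‖z i‖ ≤ 1) → eval z f ≠ 0) ∧
      ∃ (n : ℕ) (q : Poly2), IsOPA f n q ∧ (∀ q' : Poly2, IsOPA f n q' → q' = q) ∧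
        ∃ z : Fin 2 → ℂ, (∀ i, ‖z i‖ < 1) ∧ eval z q = 0 := by
  refine ⟨f, f_ne_zero, 2, q, ⟨q_mem, ?_⟩, ?_, ?_⟩
  · intro p hp
    rw [pythagoras hp]
    linarith [normSq_nonneg ((p - q) * f)]
  · rintro q' ⟨hq', hmin⟩
    have h1 := hmin q q_mem
    have h2 := pythagoras hq'
    have h3 : (q' - q) * f = 0 := eq_zero_of_normSq (by linarith)
    have h4 : q' - q = 0 := (mul_eq_zero.mp h3).resolve_right f_ne
    exact sub_eq_zero.mp h4
  · refine ⟨fun _ => 2735 / 2756, fun i => ?_, ?_⟩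
    · norm_num
    · simp only [q, map_add, map_mul, eval_C, eval_X, map_one]
      norm_num

end Pool.Agent.Results.MP_52e642_an.WeakShanksFails
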